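import Mathlib
import Pool.Agent.Helper86.Bend.Main
import Pool.Agent.Helper91.PolyTime.Verifier

/-!
# Recognising `k`-bend graphs with a fixed number of slopes is NP-hard
-/

open Turing Computability

namespace Pool.Agent.Results.MP_85aa48_lc.BendHardness

/-- The plane. -/
abbrev Plane : Type := ℝ × ℝ

/-- The segments of the polyline with the list of vertices `l`: a segment is given by its two end
points, which are consecutive entries of `l`. -/
def segments (l : List Plane) : List (Plane × Plane) := l.zip l.tail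

/-- A polyline, given by the list of its vertices: it has at least one segment, and the two end
points of each segment are different. (The polyline may cross itself.) -/
def IsPolyline (l : List Plane) : Prop := 2 ≤ l.length ∧ ∀ s ∈ segments l, s.1 ≠ s.2

/-- The number of bends of a polyline: the number of its segments minus one. -/
def bends (l : List Plane) : ℕ := (segments l).length - 1

/-- The set of points of a polyline. -/
def trace (l : List Plane) : Set Plane := {x | ∃ s ∈ segments l, x ∈ segment ℝ s.1 s.2}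

/-- A strict polyline: a polyline that does not meet itself (two of its segments have no common
point, except for the common end point of two consecutive segments) and in which no two
consecutive segments are parallel. -/
def IsStrictPolyline (l : List Plane) : Prop :=
  IsPolyline l ∧
  (∀ (i j : ℕ) (hi : i < (segments l).length) (hj : j < (segments l).length), i < j →
    ∀ x : Plane, x ∈ segment ℝ (segments l)[i].1 (segments l)[i].2 →
      x ∈ segment ℝ (segments l)[j].1 (segments l)[j].2 → j = i + 1 ∧ x = (segments l)[j].1) ∧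
  ∀ (i : ℕ) (hi : i + 1 < (segments l).length) (c : ℝ),
    (segments l)[i + 1].2 - (segments l)[i + 1].1 ≠ c • ((segments l)[i].2 - (segments l)[i].1)

/-- `P` is an unaligned EPG-representation, by curves of the class `S`, of the graph `G` with the
vertices `0, ..., n - 1`: every vertex `v` has a curve `P v` in `S`, and two different vertices are
adjacent if and only if their curves have infinitely many common points. -/
def IsRep (S : List Plane → Prop) {n : ℕ} (G : SimpleGraph (Fin n)) (P : Fin n → List Plane) :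
    Prop :=
  (∀ v, S (P v)) ∧ ∀ u v, u ≠ v → (G.Adj u v ↔ (trace (P u) ∩ trace (P v)).Infinite)

/-- `D` is a set of `d` slopes, that is, of `d` lines through the origin of the plane. -/
def IsSlopes (d : ℕ) (D : Finset (Submodule ℝ Plane)) : Prop :=
  D.card = d ∧ ∀ ℓ ∈ D, Module.finrank ℝ ℓ = 1

/-- Every segment of the polyline is parallel to a line of `D`. -/
def Follows (D : Finset (Submodule ℝ Plane)) (l : List Plane) : Prop :=
  ∀ s ∈ segments l, ∃ ℓ ∈ D, s.2 - s.1 ∈ ℓ

/-- `G` has an `EPG(D)`-representation by curves of `S` with at most `k` bends each. -/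
def HasRep (S : List Plane → Prop) (D : Finset (Submodule ℝ Plane)) (k : ℕ) {n : ℕ}
    (G : SimpleGraph (Fin n)) : Prop :=
  ∃ P : Fin n → List Plane, IsRep S G P ∧ ∀ v, Follows D (P v) ∧ bends (P v) ≤ k

/-- The `d`-bend number `b_d(G)`: the least `k` such that, for some set `D` of `d` slopes, `G` has
an `EPG(D)`-representation (by curves of `S`) in which every curve has at most `k` bends (`⊤` if
there is no such `k`). -/
noncomputable def bendNumber (S : List Plane → Prop) (d : ℕ) {n : ℕ} (G : SimpleGraph (Fin n)) :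
    ℕ∞ :=
  sInf {x | ∃ k : ℕ, x = k ∧ ∃ D, IsSlopes d D ∧ HasRep S D k G}

/-- The unary code of a number: `m` times `true`, then `false`. -/
def unary (m : ℕ) : List Bool := List.replicate m true ++ [false]

open Classical in
/-- The code of a graph: the number of vertices in unary, then the rows of the adjacency matrix. -/
noncomputable def code {n : ℕ} (G : SimpleGraph (Fin n)) : List Bool :=
  unary n ++ (List.ofFn fun i : Fin n => List.ofFn fun j : Fin n => decide (G.Adj i j)).flatten

/-- The language of the codes of the graphs with the property `C`. -/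
def Codes (C : ∀ n : ℕ, SimpleGraph (Fin n) → Prop) : Set (List Bool) :=
  {w | ∃ (n : ℕ) (G : SimpleGraph (Fin n)), C n G ∧ w = code G}

/-- The decision problem `REC(d, k)` (for curves of `S`): is `b_d(G) ≤ k`? -/
def REC (S : List Plane → Prop) (d k : ℕ) : Set (List Bool) :=
  Codes fun _ G => bendNumber S d G ≤ k

/-- The function `f` on strings is computable in polynomial time by a Turing machine. -/
def PolyTimeFun (f : List Bool → List Bool) : Prop :=
  Nonempty (TM2ComputableInPolyTime (id : List Bool → List Bool) (id : List Bool → List Bool) f)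

/-- The Boolean function `R` of two strings is computable in polynomial time by a Turing machine. -/
def PolyTimeRel (R : List Bool × List Bool → Bool) : Prop :=
  Nonempty (TM2ComputableInPolyTime
    (encodingProd (encodingList Bool) (encodingList Bool)).encode encodeBool R)

/-- The class NP: `x ∈ L` if and only if there is a certificate `y` of length polynomial in the
length of `x` that is accepted by a fixed polynomial-time verifier. -/
def InNP (L : Set (List Bool)) : Prop :=
  ∃ (p : Polynomial ℕ) (R : List Bool × List Bool → Bool), PolyTimeRel R ∧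
    ∀ x, x ∈ L ↔ ∃ y : List Bool, y.length ≤ p.eval x.length ∧ R (x, y) = true

/-- Polynomial-time many-one reducibility. -/
def Reduces (A B : Set (List Bool)) : Prop :=
  ∃ f : List Bool → List Bool, PolyTimeFun f ∧ ∀ x, x ∈ A ↔ f x ∈ B

/-- Hardness for NP under polynomial-time many-one reductions. -/
def NPHard (A : Set (List Bool)) : Prop := ∀ L, InNP L → Reduces L A

open Pool.Agent.Helper86 Pool.Agent.Helper91.PolyTime Pool.Agent.Helper91.Verifier

/-! ### Codes -/

lemma unary_append_inj {m n : ℕ} {x y : List Bool} (h : unary m ++ x = unary n ++ y) :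
    m = n ∧ x = y := by
  induction m generalizing n with
  | zero =>
    cases n with
    | zero => simpa [unary] using h
    | succ n => simp [unary, List.replicate_succ] at h
  | succ m ih =>
    cases n with
    | zero => simp [unary, List.replicate_succ] at h
    | succ n =>
      simp only [unary, List.replicate_succ, List.cons_append, List.cons.injEq, true_and] at h
      obtain ⟨h1, h2⟩ := ih h
      exact ⟨by rw [h1], h2⟩

lemma flatten_ofFn_inj {n : ℕ} {f g : Fin n → Fin n → Bool}
    (h : (List.ofFn fun i => List.ofFn fun j => f i j).flatten =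
      (List.ofFn fun i => List.ofFn fun j => g i j).flatten) : f = g := by
  have h1 : (List.ofFn fun i => List.ofFn fun j => f i j) =
      (List.ofFn fun i => List.ofFn fun j => g i j) := by
    rw [List.eq_iff_flatten_eq]
    refine ⟨h, ?_⟩
    rw [List.map_ofFn, List.map_ofFn]
    congr 1
    funext i
    simp
  have h2 := List.ofFn_injective h1
  funext i j
  have h3 := congrFun h2 i
  exact congrFun (List.ofFn_injective h3) j

lemma code_inj {n : ℕ} {G H : SimpleGraph (Fin n)} (h : code G = code H) : G = H := by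
  classical
  have h1 := flatten_ofFn_inj (unary_append_inj h).2
  ext i j
  have h2 := congrFun (congrFun h1 i) j
  simpa using h2

lemma mem_codes {C : ∀ n : ℕ, SimpleGraph (Fin n) → Prop} {n : ℕ} {G : SimpleGraph (Fin n)} :
    code G ∈ Codes C ↔ C n G := by
  constructor
  · rintro ⟨m, H, hH, h⟩
    obtain rfl := (unary_append_inj h).1
    rwa [code_inj h]
  · exact fun h => ⟨n, G, h, rfl⟩

lemma ofFn_getElem_map {α β : Type*} (l : List α) (f : α → β) :
    (List.ofFn fun i : Fin l.length => f l[i]) = l.map f := by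
  refine List.ext_getElem (by simp) fun i h1 h2 => ?_
  simp

lemma code_GP (l : List Bend.T4) : code (Bend.GP l) = Bend.bits l := by
  classical
  unfold code Bend.bits
  congr 1
  rw [List.flatMap_def, ← ofFn_getElem_map]
  congr 2
  funext i
  rw [← ofFn_getElem_map]
  congr 1
  funext j
  rw [Bool.eq_iff_iff, decide_eq_true_iff]
  exact Iff.rfl

/-! ### The sandwich -/

/-- All segments of the polyline are horizontal or vertical. -/
def IsAxisParallel (l : List Plane) : Prop := ∀ s ∈ segments l, s.1.2 = s.2.2 ∨ s.1.1 = s.2.1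

lemma isStrict_of_alt {l : List Plane} (h : IsPolyline l) (h1 : Bend.IsSimple l)
    (h2 : Bend.Alt l) : IsStrictPolyline l := by
  refine ⟨h, h1, fun i hi c heq => ?_⟩
  have hne : (segments l)[i + 1].1 ≠ (segments l)[i + 1].2 := h.2 _ (List.getElem_mem _)
  apply hne
  have e1 := congrArg Prod.fst heq
  have e2 := congrArg Prod.snd heq
  simp only [Prod.fst_sub, Prod.snd_sub, Prod.smul_fst, Prod.smul_snd, smul_eq_mul] at e1 e2
  rcases h2 i hi with ⟨h3, h4⟩ | ⟨h3, h4⟩
  · change (segments l)[i].1.2 = (segments l)[i].2.2 at h3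
    change (segments l)[i + 1].1.1 = (segments l)[i + 1].2.1 at h4
    refine Prod.ext h4 ?_
    rw [h3, sub_self, mul_zero] at e2
    linarith
  · change (segments l)[i].1.1 = (segments l)[i].2.1 at h3
    change (segments l)[i + 1].1.2 = (segments l)[i + 1].2.2 at h4
    refine Prod.ext ?_ h4
    rw [h3, sub_self, mul_zero] at e1
    linarith

/-- Every class between the graphs that have a representation by axis-parallel strict polylines
with at most `k` bends and the graphs that have a representation by polylines with at most `k`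
bends is hard. -/
theorem sandwich {k : ℕ} (hk : 2 ≤ k) (C : ∀ n : ℕ, SimpleGraph (Fin n) → Prop)
    (h1 : ∀ (n : ℕ) (G : SimpleGraph (Fin n)),
      (∃ P, IsRep IsStrictPolyline G P ∧ ∀ v, IsAxisParallel (P v) ∧ bends (P v) ≤ k) → C n G)
    (h2 : ∀ (n : ℕ) (G : SimpleGraph (Fin n)), C n G →
      ∃ P, IsRep IsPolyline G P ∧ ∀ v, bends (P v) ≤ k) :
    NPHard (Codes C) := by
  intro L hL
  obtain ⟨l, hl, hyes, hno⟩ := Bend.main (L := L) hL hk
  refine ⟨fun x => Bend.bits (l x), ?_, fun x => ?_⟩
  · refine tm2_of_ptf_str (PTF.strOfList ?_)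
    have hx : PTF (fun x : Str => x.toList) := PTF.strToList PTF.id
    exact hl.comp hx
  · show x ∈ L ↔ Bend.bits (l x) ∈ Codes C
    rw [← code_GP, mem_codes]
    constructor
    · intro hx
      obtain ⟨P, hP, hP'⟩ := hyes x hx
      exact h1 _ _ ⟨P, ⟨fun v => isStrict_of_alt (hP.1 v) (hP' v).2.1 (hP' v).2.2.1, hP.2⟩,
        fun v => ⟨(hP' v).2.2.2, (hP' v).1⟩⟩
    · intro hx
      obtain ⟨P, hP, hP'⟩ := h2 _ _ hx
      exact hno x ⟨P, hP, hP'⟩

/-! ### Linear maps -/

lemma segments_map (A : Plane → Plane) (l : List Plane) :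
    segments (l.map A) = (segments l).map (Prod.map A A) := by
  unfold segments
  rw [← List.map_tail, List.zip_map]

lemma segment_map (A : Plane →ₗ[ℝ] Plane) (a b : Plane) :
    segment ℝ (A a) (A b) = A '' segment ℝ a b := by
  have h := image_segment ℝ A.toAffineMap a b
  simpa using h.symm

lemma trace_map (A : Plane →ₗ[ℝ] Plane) (l : List Plane) : trace (l.map A) = A '' trace l := by
  ext x
  constructor
  · rintro ⟨s', hs', hx⟩
    rw [segments_map, List.mem_map] at hs'
    obtain ⟨s, hs, rfl⟩ := hs'
    have h : x ∈ segment ℝ (A s.1) (A s.2) := hx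
    rw [segment_map] at h
    obtain ⟨y, hy, rfl⟩ := h
    exact ⟨y, ⟨s, hs, hy⟩, rfl⟩
  · rintro ⟨y, ⟨s, hs, hy⟩, rfl⟩
    refine ⟨Prod.map A A s, ?_, ?_⟩
    · rw [segments_map]
      exact List.mem_map_of_mem hs
    · show A y ∈ segment ℝ (A s.1) (A s.2)
      rw [segment_map]
      exact ⟨y, hy, rfl⟩

lemma isPolyline_map {l : List Plane} (h : IsPolyline l) {A : Plane →ₗ[ℝ] Plane}
    (hA : Function.Injective A) : IsPolyline (l.map A) := by
  refine ⟨by rw [List.length_map]; exact h.1, fun s' hs' => ?_⟩
  rw [segments_map, List.mem_map] at hs'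
  obtain ⟨s, hs, rfl⟩ := hs'
  exact fun heq => h.2 s hs (hA heq)

lemma isStrictPolyline_map {l : List Plane} (h : IsStrictPolyline l) {A : Plane →ₗ[ℝ] Plane}
    (hA : Function.Injective A) : IsStrictPolyline (l.map A) := by
  obtain ⟨h0, h1, h2⟩ := h
  have hlen : (segments (l.map A)).length = (segments l).length := by
    rw [segments_map, List.length_map]
  have hget : ∀ (i : ℕ) (hi : i < (segments (l.map A)).length),
      (segments (l.map A))[i] = Prod.map A A ((segments l)[i]'(hlen ▸ hi)) := by
    intro i hi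
    simp only [segments_map, List.getElem_map]
  refine ⟨isPolyline_map h0 hA, fun i j hi hj hij x hxi hxj => ?_, fun i hi c heq => ?_⟩
  · have hi' := hlen ▸ hi
    have hj' := hlen ▸ hj
    rw [hget i hi] at hxi
    rw [hget j hj] at hxj ⊢
    have k1 : x ∈ segment ℝ (A ((segments l)[i]).1) (A ((segments l)[i]).2) := hxi
    have k2 : x ∈ segment ℝ (A ((segments l)[j]).1) (A ((segments l)[j]).2) := hxj
    rw [segment_map] at k1 k2
    obtain ⟨y, hy, rfl⟩ := k1
    obtain ⟨z, hz, hyz⟩ := k2
    obtain rfl := hA hyz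
    obtain ⟨k3, k4⟩ := h1 i j hi' hj' hij z hy hz
    exact ⟨k3, congrArg A k4⟩
  · have hi' : i + 1 < (segments l).length := hlen ▸ hi
    apply h2 i hi' c
    apply hA
    rw [hget (i + 1) hi, hget i (by omega)] at heq
    rw [map_sub, map_smul, map_sub]
    exact heq

lemma isRep_map {n : ℕ} {G : SimpleGraph (Fin n)} {P : Fin n → List Plane}
    (h : IsRep IsStrictPolyline G P) {A : Plane →ₗ[ℝ] Plane} (hA : Function.Injective A) :
    IsRep IsStrictPolyline G fun v => (P v).map A := by
  constructor
  · exact fun v => isStrictPolyline_map (h.1 v) hA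
  · intro u v huv
    rw [h.2 u v huv, trace_map, trace_map, ← Set.image_inter hA,
      Set.infinite_image_iff hA.injOn]

/-- Two different lines through the origin are the images of the axes. -/
lemma exists_map {ℓ₁ ℓ₂ : Submodule ℝ Plane} (h1 : Module.finrank ℝ ℓ₁ = 1)
    (h2 : Module.finrank ℝ ℓ₂ = 1) (hne : ℓ₁ ≠ ℓ₂) :
    ∃ A : Plane →ₗ[ℝ] Plane, Function.Injective A ∧ (∀ a : ℝ, A (a, 0) ∈ ℓ₁) ∧
      ∀ a : ℝ, A (0, a) ∈ ℓ₂ := by
  obtain ⟨v, hv0, hv⟩ := finrank_eq_one_iff'.1 h1
  obtain ⟨w, hw0, hw⟩ := finrank_eq_one_iff'.1 h2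
  let A : Plane →ₗ[ℝ] Plane :=
    (LinearMap.fst ℝ ℝ ℝ).smulRight (v : Plane) + (LinearMap.snd ℝ ℝ ℝ).smulRight (w : Plane)
  have hAx : ∀ x : Plane, A x = x.1 • (v : Plane) + x.2 • (w : Plane) := fun x => rfl
  refine ⟨A, ?_, fun a => ?_, fun a => ?_⟩
  · rw [← LinearMap.ker_eq_bot, LinearMap.ker_eq_bot']
    rintro ⟨x, y⟩ hxy
    rw [hAx] at hxy
    by_cases hy : y = 0
    · subst hy
      have hx : x = 0 := by
        by_contra hx
        apply hv0
        have h3 : x • (v : Plane) = 0 := by simpa using hxy
        have h4 := (smul_eq_zero.1 h3).resolve_left hx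
        exact Subtype.ext h4
      rw [hx]
      rfl
    · exfalso
      apply hne
      have h3 : (w : Plane) ∈ ℓ₁ := by
        have h4 : (w : Plane) = (-(y⁻¹ * x)) • (v : Plane) := by
          have h5 : y • (w : Plane) = -(x • (v : Plane)) := by
            rw [eq_neg_iff_add_eq_zero, add_comm]
            exact hxy
          calc (w : Plane) = y⁻¹ • (y • (w : Plane)) := by
                rw [smul_smul, inv_mul_cancel₀ hy, one_smul]
            _ = _ := by rw [h5, smul_neg, smul_smul, neg_smul]
        rw [h4]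
        exact ℓ₁.smul_mem _ v.2
      have h6 : ℓ₂ ≤ ℓ₁ := by
        intro z hz
        obtain ⟨c, hc⟩ := hw ⟨z, hz⟩
        have h7 : z = c • (w : Plane) := by
          have := congrArg Subtype.val hc
          exact this.symm
        rw [h7]
        exact ℓ₁.smul_mem _ h3
      exact (Submodule.eq_of_le_of_finrank_eq h6 (by rw [h1, h2])).symm
  · rw [hAx]
    simpa using ℓ₁.smul_mem a v.2
  · rw [hAx]
    simpa using ℓ₂.smul_mem a w.2

lemma hasRep_of_axis {D : Finset (Submodule ℝ Plane)} (hD : 2 ≤ D.card)
    (hD' : ∀ ℓ ∈ D, Module.finrank ℝ ℓ = 1) {S : List Plane → Prop}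
    (hS : ∀ l, IsStrictPolyline l → S l) {k n : ℕ} {G : SimpleGraph (Fin n)}
    (h : ∃ P, IsRep IsStrictPolyline G P ∧ ∀ v, IsAxisParallel (P v) ∧ bends (P v) ≤ k) :
    HasRep S D k G := by
  obtain ⟨ℓ₁, hℓ₁, ℓ₂, hℓ₂, hne⟩ := Finset.one_lt_card.1 hD
  obtain ⟨A, hA, hA1, hA2⟩ := exists_map (hD' _ hℓ₁) (hD' _ hℓ₂) hne
  obtain ⟨P, hP, hP'⟩ := h
  have hrep := isRep_map hP hA
  refine ⟨fun v => (P v).map A, ⟨fun v => hS _ (hrep.1 v), hrep.2⟩,
    fun v => ⟨fun s' hs' => ?_, ?_⟩⟩
  · rw [segments_map, List.mem_map] at hs'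
    obtain ⟨s, hs, rfl⟩ := hs'
    show ∃ ℓ ∈ D, A s.2 - A s.1 ∈ ℓ
    rw [← map_sub]
    rcases (hP' v).1 s hs with h1 | h1
    · refine ⟨ℓ₁, hℓ₁, ?_⟩
      have h2 : s.2 - s.1 = ((s.2 - s.1).1, 0) := Prod.ext rfl (by simp [h1])
      rw [h2]
      exact hA1 _
    · refine ⟨ℓ₂, hℓ₂, ?_⟩
      have h2 : s.2 - s.1 = (0, (s.2 - s.1).2) := Prod.ext (by simp [h1]) rfl
      rw [h2]
      exact hA2 _
  · have := (hP' v).2
    unfold bends at this ⊢
    rwa [segments_map, List.length_map]

lemma exists_slopes (d : ℕ) : ∃ D : Finset (Submodule ℝ Plane), IsSlopes d D := by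
  classical
  have hinj : Function.Injective fun c : ℕ => Submodule.span ℝ {((1 : ℝ), (c : ℝ))} := by
    intro a b hab
    have h1 : ((1 : ℝ), (a : ℝ)) ∈ Submodule.span ℝ {((1 : ℝ), (b : ℝ))} := by
      have h2 : ((1 : ℝ), (a : ℝ)) ∈ Submodule.span ℝ {((1 : ℝ), (a : ℝ))} :=
        Submodule.mem_span_singleton_self _
      have h3 : Submodule.span ℝ {((1 : ℝ), (a : ℝ))} = Submodule.span ℝ {((1 : ℝ), (b : ℝ))} := hab
      rwa [h3] at h2
    obtain ⟨c, hc⟩ := Submodule.mem_span_singleton.1 h1
    simp only [Prod.smul_mk, smul_eq_mul, mul_one, Prod.mk.injEq] at hc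
    obtain ⟨hc1, hc2⟩ := hc
    rw [hc1, one_mul] at hc2
    exact (Nat.cast_injective hc2).symm
  refine ⟨(Finset.range d).image fun c : ℕ => Submodule.span ℝ {((1 : ℝ), (c : ℝ))}, ?_, ?_⟩
  · rw [Finset.card_image_of_injective _ hinj, Finset.card_range]
  · intro ℓ hℓ
    obtain ⟨c, -, rfl⟩ := Finset.mem_image.1 hℓ
    exact finrank_span_singleton (by simp)

lemma bendNumber_le {S : List Plane → Prop} {d k n : ℕ} {G : SimpleGraph (Fin n)}
    (h : ∃ D, IsSlopes d D ∧ HasRep S D k G) : bendNumber S d G ≤ k := sInf_le ⟨k, rfl, h⟩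

lemma exists_of_bendNumber_le {S : List Plane → Prop} (hS : ∀ l, S l → IsPolyline l) {d k n : ℕ}
    {G : SimpleGraph (Fin n)} (h : bendNumber S d G ≤ k) :
    ∃ P, IsRep IsPolyline G P ∧ ∀ v, bends (P v) ≤ k := by
  have hne : {x : ℕ∞ | ∃ k : ℕ, x = k ∧ ∃ D, IsSlopes d D ∧ HasRep S D k G}.Nonempty := by
    by_contra hc
    rw [Set.not_nonempty_iff_eq_empty] at hc
    unfold bendNumber at h
    rw [hc, sInf_empty, top_le_iff] at h
    exact ENat.natCast_ne_top k h
  obtain ⟨k', hk', D, hD, P, hP, hP'⟩ := csInf_mem hne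
  have h1 : bendNumber S d G = k' := hk'
  rw [h1, Nat.cast_le] at h
  exact ⟨P, ⟨fun v => hS _ (hP.1 v), hP.2⟩, fun v => (hP' v).2.trans h⟩

/-- **The result.** For all `d ≥ 2` and `k ≥ 2`, the problem `REC(d, k)` is NP-hard. Here the curves
of the representations may be the polylines of any class `S` between the strict polylines and all
polylines; for `S = IsPolyline`, all polylines are allowed. -/
theorem result (d k : ℕ) (hd : 2 ≤ d) (hk : 2 ≤ k) (S : List Plane → Prop)
    (hS : ∀ l, S l → IsPolyline l) (hS' : ∀ l, IsStrictPolyline l → S l) : NPHard (REC S d k) := by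
  refine sandwich hk _ (fun n G h => ?_) fun n G h => exists_of_bendNumber_le hS h
  obtain ⟨D, hD⟩ := exists_slopes d
  exact bendNumber_le ⟨D, hD, hasRep_of_axis (by rw [hD.1]; exact hd) hD.2 hS' h⟩

end Pool.Agent.Results.MP_85aa48_lc.BendHardness
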